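import Pool.Agent.Run7.h342.MD.Stm

/-!
Piece ETA: `GL_n → GL_n / μ_{d-1}` is etale at the unit element.
-/

namespace Run7.h342.MD.EtaP

open MvPolynomial Run7.h342.MD

noncomputable section

set_option linter.unusedSectionVars false
set_option linter.unusedVariables false

variable {n d : ℕ} {k : Type} [Field k] [IsAlgClosed k] [CharZero k]



/-- the coordinate functions of `GL_n` -/
def xf (i j : Fin n) : GL (Fin n) k → k := fun g => (g : Matrix (Fin n) (Fin n) k) i j

theorem regG_xf (i j : Fin n) : RegG (xf i j : GL (Fin n) k → k) := by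
  refine ⟨X (i, j), 0, fun g => ?_⟩
  rw [pow_zero, mul_one, eval_X]
  rfl

theorem regG_pow {f : GL (Fin n) k → k} (h : RegG f) (a : ℕ) : RegG (f ^ a) :=
  (OG n k).pow_mem h a

theorem regG_mul {f f' : GL (Fin n) k → k} (h : RegG f) (h' : RegG f') : RegG (f * f') :=
  (OG n k).mul_mem h h'

/-- the function `x_{ij} * x_{00} ^ (e-1)` -/
def zf (o i j : Fin n) (a : ℕ) : GL (Fin n) k → k := xf i j * xf o o ^ a

theorem zf_mem (hd : 2 ≤ d) (o i j : Fin n) : (zf o i j (d - 2) : GL (Fin n) k → k) ∈ Cm n d k := by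
  refine ⟨regG_mul (regG_xf _ _) (regG_pow (regG_xf _ _) _), fun ζ g g' hz hg => ?_⟩
  have h1 : d - 1 = (d - 2) + 1 := by omega
  simp only [zf, Pi.mul_apply, Pi.pow_apply, xf, hg, Matrix.smul_apply, smul_eq_mul]
  calc ζ * g.1 i j * (ζ * g.1 o o) ^ (d - 2)
      = ζ ^ (d - 1) * (g.1 i j * g.1 o o ^ (d - 2)) := by rw [h1]; ring
    _ = _ := by rw [hz, one_mul]

/-- the determinant to the power `e` -/
def df (a : ℕ) : GL (Fin n) k → k := fun g => (g : Matrix (Fin n) (Fin n) k).det ^ a

theorem df_mem : (df (d - 1) : GL (Fin n) k → k) ∈ Cm n d k := by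
  refine ⟨⟨(Matrix.mvPolynomialX (Fin n) (Fin n) k).det ^ (d - 1), 0, fun g => ?_⟩,
    fun ζ g g' hz hg => ?_⟩
  · have h3 : eval (ent (g : Matrix (Fin n) (Fin n) k))
        (Matrix.mvPolynomialX (Fin n) (Fin n) k).det = (g : Matrix (Fin n) (Fin n) k).det := by
      rw [Matrix.eval_det_mvPolynomialX]
      rfl
    rw [pow_zero, mul_one, map_pow, h3]
    rfl
  · simp only [df, hg, Matrix.det_smul, mul_pow]
    rw [← pow_mul, mul_comm _ (d - 1), pow_mul, hz, one_pow, one_mul]

/-- The elements of `Cm` with a Taylor expansion at the unit element. -/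
theorem taylor {R : Type} [CommRing R] [Algebra k R] (M : Ideal R) {ι : Type} [Fintype ι]
    (z : ι → R) (z0 : ι → k) (hz : ∀ i, z i - algebraMap k R (z0 i) ∈ M) (P : MvPolynomial ι k) :
    ∃ α : ι → k, aeval z P - algebraMap k R (eval z0 P) -
      ∑ i, algebraMap k R (α i) * (z i - algebraMap k R (z0 i)) ∈ M ^ 2 := by
  classical
  have hL : ∀ α : ι → k, ∑ i, algebraMap k R (α i) * (z i - algebraMap k R (z0 i)) ∈ M :=
    fun α => M.sum_mem fun i _ => M.mul_mem_left _ (hz i)
  induction P using MvPolynomial.induction_on with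
  | C a =>
    refine ⟨0, ?_⟩
    have : aeval z (C a) - algebraMap k R (eval z0 (C a)) -
      ∑ i, algebraMap k R ((0 : ι → k) i) * (z i - algebraMap k R (z0 i)) = 0 := by
      simp
    rw [this]
    exact Ideal.zero_mem _
  | add p q hp hq =>
    obtain ⟨α, hα⟩ := hp
    obtain ⟨β, hβ⟩ := hq
    refine ⟨α + β, ?_⟩
    have h1 := Ideal.add_mem _ hα hβ
    convert h1 using 1
    have h2 : ∑ i, algebraMap k R ((α + β) i) * (z i - algebraMap k R (z0 i)) =
        ∑ i, algebraMap k R (α i) * (z i - algebraMap k R (z0 i)) +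
        ∑ i, algebraMap k R (β i) * (z i - algebraMap k R (z0 i)) := by
      rw [← Finset.sum_add_distrib]
      refine Finset.sum_congr rfl fun i _ => ?_
      rw [Pi.add_apply, map_add, add_mul]
    rw [h2, map_add, map_add, map_add]
    ring
  | mul_X p i hp =>
    obtain ⟨α, hα⟩ := hp
    -- `p(z) = a + L + m`, `z_i = b + l`, product `ab + (a l + b L) + (L l + m z_i)`
    set a : k := eval z0 p with ha
    refine ⟨fun j => z0 i * α j + if j = i then a else 0, ?_⟩
    set L : R := ∑ i, algebraMap k R (α i) * (z i - algebraMap k R (z0 i)) with hLdef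
    set m : R := aeval z p - algebraMap k R a - L with hm
    have h3 : ∑ j, algebraMap k R (z0 i * α j + if j = i then a else 0) *
        (z j - algebraMap k R (z0 j)) = algebraMap k R (z0 i) * L +
          algebraMap k R a * (z i - algebraMap k R (z0 i)) := by
      rw [hLdef, Finset.mul_sum]
      have h4 : algebraMap k R a * (z i - algebraMap k R (z0 i)) =
          ∑ j, (if j = i then algebraMap k R a * (z j - algebraMap k R (z0 j)) else 0) := by
        rw [Finset.sum_ite_eq' Finset.univ i, if_pos (Finset.mem_univ _)]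
      rw [h4, ← Finset.sum_add_distrib]
      refine Finset.sum_congr rfl fun j _ => ?_
      by_cases hj : j = i
      · rw [if_pos hj, if_pos hj, map_add, map_mul]
        ring
      · rw [if_neg hj, if_neg hj, add_zero, add_zero, map_mul]
        ring
    have h5 : aeval z (p * X i) - algebraMap k R (eval z0 (p * X i)) -
        ∑ j, algebraMap k R (z0 i * α j + if j = i then a else 0) *
        (z j - algebraMap k R (z0 j)) = L * (z i - algebraMap k R (z0 i)) + m * z i := by
      rw [h3, map_mul, map_mul, eval_X, aeval_X, ← ha, map_mul, hm]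
      ring
    rw [h5]
    refine Ideal.add_mem _ ?_ (Ideal.mul_mem_right _ _ hα)
    rw [pow_two]
    exact Ideal.mul_mem_mul (hL α) (hz i)

/-- averaging over the roots of unity picks the components of degrees divisible by `e` -/
theorem avg (e : ℕ) (he : 0 < e) (j : ℕ) (ζ : k) (hζ : IsPrimitiveRoot ζ e) :
    ∑ a ∈ Finset.range e, (ζ ^ a) ^ j = if e ∣ j then (e : k) else 0 := by
  have h1 : ∀ a, (ζ ^ a) ^ j = (ζ ^ j) ^ a := fun a => by
    rw [← pow_mul, ← pow_mul, mul_comm]
  simp only [h1]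
  split_ifs with h
  · have : ζ ^ j = 1 := (hζ.pow_eq_one_iff_dvd j).2 h
    rw [this]
    simp
  · have hne : ζ ^ j ≠ 1 := fun h2 => h ((hζ.pow_eq_one_iff_dvd j).1 h2)
    have h3 : (ζ ^ j) ^ e = 1 := by
      rw [← pow_mul, mul_comm, pow_mul, hζ.pow_eq_one, one_pow]
    have h4 := mul_geom_sum (ζ ^ j) e
    rw [h3, sub_self] at h4
    exact (mul_eq_zero.1 h4).resolve_left (sub_ne_zero.2 hne)

theorem eval_scale {σ : Type} [Fintype σ] {φ : MvPolynomial σ k} {j : ℕ} (h : φ.IsHomogeneous j)
    (c : k) (x : σ → k) : eval (fun q => c * x q) φ = c ^ j * eval x φ := by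
  rw [eval_eq', eval_eq', Finset.mul_sum]
  refine Finset.sum_congr rfl fun s hs => ?_
  have h1 : s.degree = j := by
    by_contra hne
    exact (mem_support_iff.1 hs) (h.coeff_eq_zero hne)
  have h2 : ∑ i, s i = j := by rw [← h1, Finsupp.degree_eq_sum]
  simp only [mul_pow, Finset.prod_mul_distrib]
  rw [Finset.prod_pow_eq_pow_sum, h2]
  ring

/-- A function in `Cm` times a product of powers of `det ^ e` and `x_{00} ^ e` is a polynomial
in the `z_{ij}`. -/
theorem clear (hd : 2 ≤ d) (o : Fin n) {f : GL (Fin n) k → k} (hf : f ∈ Cm n d k) :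
    ∃ (m T : ℕ) (P : MvPolynomial (Fin n × Fin n) k), ∀ g : GL (Fin n) k,
      (g : Matrix (Fin n) (Fin n) k).det ^ ((d - 1) * m) *
        (g : Matrix (Fin n) (Fin n) k) o o ^ ((d - 1) * T) * f g =
      eval (fun q : Fin n × Fin n => zf o q.1 q.2 (d - 2) g) P := by
  classical
  obtain ⟨⟨p0, m, hp0⟩, hinv⟩ := hf
  set e := d - 1 with he
  have he1 : e = (d - 2) + 1 := by omega
  have hepos : 0 < e := by omega
  set dt : MvPolynomial (Fin n × Fin n) k := (Matrix.mvPolynomialX (Fin n) (Fin n) k).det with hdt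
  have hdet : ∀ g : Matrix (Fin n) (Fin n) k, eval (ent g) dt = g.det := by
    intro g
    rw [hdt, Matrix.eval_det_mvPolynomialX]
    rfl
  -- `f * det ^ (e m) = p`
  set p : MvPolynomial (Fin n × Fin n) k := p0 * dt ^ ((e - 1) * m) with hp
  have hfp : ∀ g : GL (Fin n) k, f g * (g : Matrix (Fin n) (Fin n) k).det ^ (e * m) =
      eval (ent (g : Matrix (Fin n) (Fin n) k)) p := by
    intro g
    rw [hp, map_mul, map_pow, hdet, ← hp0 g, mul_assoc, ← pow_add]
    congr 2
    have : e = (e - 1) + 1 := by omega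
    conv_lhs => rw [this]
    ring
  -- primitive root
  have : NeZero (e : k) := ⟨Nat.cast_ne_zero.2 (by omega)⟩
  obtain ⟨ζ, hζ⟩ := HasEnoughRootsOfUnity.exists_primitiveRoot k e
  have hζ0 : ζ ≠ 0 := hζ.ne_zero (by omega)
  have hsc : ∀ (a : ℕ) (g : GL (Fin n) k),
      eval (ent (g : Matrix (Fin n) (Fin n) k)) p =
        eval (fun q => ζ ^ a * ent (g : Matrix (Fin n) (Fin n) k) q) p := by
    intro a g
    have ha0 : ζ ^ a ≠ 0 := pow_ne_zero _ hζ0
    have hae : (ζ ^ a) ^ (d - 1) = 1 := by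
      rw [← he, ← pow_mul, mul_comm, pow_mul, hζ.pow_eq_one, one_pow]
    set g' : GL (Fin n) k := Matrix.GeneralLinearGroup.mkOfDetNeZero
      (ζ ^ a • (g : Matrix (Fin n) (Fin n) k)) (by
        rw [Matrix.det_smul]
        exact mul_ne_zero (pow_ne_zero _ ha0) (Matrix.GeneralLinearGroup.det_ne_zero g)) with hg'
    have hg'1 : (g' : Matrix (Fin n) (Fin n) k) = ζ ^ a • (g : Matrix (Fin n) (Fin n) k) := rfl
    have h1 := hfp g'
    have h2 := hinv (ζ ^ a) g g' hae hg'1
    rw [h2, hg'1, Matrix.det_smul] at h1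
    have h3 : (((ζ ^ a) ^ Fintype.card (Fin n) * (g : Matrix (Fin n) (Fin n) k).det) ^ (e * m)) =
        (g : Matrix (Fin n) (Fin n) k).det ^ (e * m) := by
      rw [mul_pow, ← pow_mul, mul_comm (Fintype.card (Fin n)), mul_assoc, pow_mul, hae, one_pow,
        one_mul]
    rw [h3, hfp g] at h1
    rw [h1]
    rfl
  -- homogeneous components
  set D := p.totalDegree + 1 with hD
  have hsum : p = ∑ j ∈ Finset.range D, homogeneousComponent j p :=
    (sum_homogeneousComponent p).symm
  have hcomp : ∀ (c : k) (x : Fin n × Fin n → k),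
      eval (fun q => c * x q) p = ∑ j ∈ Finset.range D, c ^ j * eval x (homogeneousComponent j p) := by
    intro c x
    conv_lhs => rw [hsum]
    rw [map_sum]
    refine Finset.sum_congr rfl fun j _ => ?_
    exact eval_scale (homogeneousComponent_isHomogeneous j p) c x
  refine ⟨m, (e - 1) * D, ∑ j ∈ Finset.range D, if e ∣ j then homogeneousComponent j p *
    X (o, o) ^ ((e - 1) * D - (e - 1) * (j / e)) else 0, fun g => ?_⟩
  set y : k := (g : Matrix (Fin n) (Fin n) k) o o with hy
  set G : Fin n × Fin n → k := ent (g : Matrix (Fin n) (Fin n) k) with hG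
  have hz : (fun q : Fin n × Fin n => zf o q.1 q.2 (d - 2) g) = fun q => y ^ (e - 1) * G q := by
    funext q
    have : e - 1 = d - 2 := by omega
    rw [this]
    simp only [zf, xf, Pi.mul_apply, Pi.pow_apply, hG, ent, hy]
    ring
  rw [hz, map_sum]
  have hterm : ∀ j ∈ Finset.range D, eval (fun q => y ^ (e - 1) * G q) (if e ∣ j then
      homogeneousComponent j p * X (o, o) ^ ((e - 1) * D - (e - 1) * (j / e)) else 0) =
      y ^ (e * ((e - 1) * D)) * (if e ∣ j then eval G (homogeneousComponent j p) else 0) := by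
    intro j hj
    by_cases hej : e ∣ j
    · rw [if_pos hej, if_pos hej, map_mul, map_pow, eval_X,
        eval_scale (homogeneousComponent_isHomogeneous j p)]
      obtain ⟨N', rfl⟩ := hej
      rw [Nat.mul_div_cancel_left _ hepos]
      have hG0 : G (o, o) = y := rfl
      rw [hG0]
      have hle : (e - 1) * N' ≤ (e - 1) * D := by
        apply Nat.mul_le_mul_left
        have h1 := Finset.mem_range.1 hj
        exact (Nat.le_mul_of_pos_left N' hepos).trans h1.le
      obtain ⟨r, hr⟩ := Nat.exists_eq_add_of_le hle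
      rw [hr, Nat.add_sub_cancel_left]
      have h2 : y ^ (e - 1) * y = y ^ e := by
        rw [← pow_succ]
        congr 1
        omega
      rw [h2, ← pow_mul, ← pow_mul, mul_add, pow_add]
      have h3 : (e - 1) * (e * N') = e * ((e - 1) * N') := by ring
      rw [h3]
      ring
    · rw [if_neg hej, if_neg hej, map_zero, mul_zero]
  rw [Finset.sum_congr rfl hterm, ← Finset.mul_sum]
  have hfg := hfp g
  have havg : (e : k) * eval G p =
      (e : k) * ∑ j ∈ Finset.range D, (if e ∣ j then eval G (homogeneousComponent j p) else 0) := by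
    have h1 : (e : k) * eval G p = ∑ a ∈ Finset.range e,
        ∑ j ∈ Finset.range D, (ζ ^ a) ^ j * eval G (homogeneousComponent j p) := by
      have h2 : ∀ a ∈ Finset.range e, ∑ j ∈ Finset.range D,
          (ζ ^ a) ^ j * eval G (homogeneousComponent j p) = eval G p := by
        intro a _
        rw [← hcomp, ← hsc a g]
      rw [Finset.sum_congr rfl h2, Finset.sum_const, Finset.card_range, nsmul_eq_mul]
    rw [h1, Finset.sum_comm, Finset.mul_sum]
    refine Finset.sum_congr rfl fun j _ => ?_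
    rw [← Finset.sum_mul, avg e hepos j ζ hζ]
    by_cases hej : e ∣ j
    · rw [if_pos hej, if_pos hej]
    · rw [if_neg hej, if_neg hej, zero_mul, mul_zero]
  have hne : (e : k) ≠ 0 := Nat.cast_ne_zero.2 (by omega)
  have havg' := mul_left_cancel₀ hne havg
  rw [← havg', ← hfg]
  ring

/-- value of the ideal `Mx` -/
theorem mem_Mx (f : Cm n d k) : f ∈ Mx n d k ↔ f.1 1 = 0 := Iff.rfl

theorem dG_zero_of_mem_sq (hDG : S_DG n k) (f : Cm n d k) (hf : f ∈ Mx n d k ^ 2)
    (Y : Matrix (Fin n) (Fin n) k) : dG f.1 Y = 0 := by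
  rw [pow_two] at hf
  refine Submodule.mul_induction_on hf ?_ ?_
  · intro a ha b hb
    have h1 := hDG.mul a.1 b.1 a.2.1 b.2.1 Y
    have ha' : a.1 1 = 0 := ha
    have hb' : b.1 1 = 0 := hb
    have h2 : (a * b : Cm n d k).1 = a.1 * b.1 := rfl
    rw [h2, h1, ha', hb', zero_mul, zero_mul, add_zero]
  · intro a b ha hb
    have h2 : (a + b : Cm n d k).1 = a.1 + b.1 := rfl
    rw [h2, hDG.add a.1 b.1 a.2.1 b.2.1, ha, hb, add_zero]

theorem dG_xf (hDG : S_DG n k) (i j : Fin n) (Y : Matrix (Fin n) (Fin n) k) :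
    dG (xf i j : GL (Fin n) k → k) Y = Y i j := by
  classical
  have h : RepG (xf i j : GL (Fin n) k → k) (X (i, j)) 0 := by
    intro g
    rw [pow_zero, mul_one, eval_X]
    rfl
  rw [hDG.rep _ _ _ h Y]
  simp only [dd, Nat.cast_zero, zero_mul, sub_zero, pderiv_X]
  rw [Finset.sum_eq_single (i, j)]
  · simp [ent]
  · intro q _ hq
    rw [Pi.single_eq_of_ne hq.symm, map_zero, mul_zero]
  · intro h1
    exact absurd (Finset.mem_univ _) h1

theorem dG_pow (hDG : S_DG n k) {f : GL (Fin n) k → k} (hf : RegG f) (h1 : f 1 = 1) (a : ℕ)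
    (Y : Matrix (Fin n) (Fin n) k) : dG (f ^ a) Y = a * dG f Y := by
  induction a with
  | zero =>
    have := hDG.const 1 Y
    have h2 : (f ^ 0 : GL (Fin n) k → k) = fun _ => 1 := by
      rw [pow_zero]
      rfl
    rw [h2, this, Nat.cast_zero, zero_mul]
  | succ a ih =>
    rw [pow_succ, hDG.mul _ _ (regG_pow hf a) hf, ih, Pi.pow_apply, h1, one_pow]
    push_cast
    ring

theorem dG_zf (hDG : S_DG n k) (o i j : Fin n) (a : ℕ) (Y : Matrix (Fin n) (Fin n) k) :
    dG (zf o i j a : GL (Fin n) k → k) Y = Y i j + (if i = j then (a : k) * Y o o else 0) := by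
  classical
  have h1 : (xf o o : GL (Fin n) k → k) 1 = 1 := by
    simp [xf]
  unfold zf
  rw [hDG.mul _ _ (regG_xf _ _) (regG_pow (regG_xf _ _) _), dG_pow hDG (regG_xf _ _) h1,
    dG_xf hDG, dG_xf hDG, Pi.pow_apply, h1, one_pow, one_mul]
  have h2 : (xf i j : GL (Fin n) k → k) 1 = if i = j then 1 else 0 := by
    simp [xf, Matrix.one_apply]
  rw [h2]
  split_ifs <;> ring

/-- Piece ETA. -/
theorem t_ETA0 (hn : 3 ≤ n) (hd : 2 ≤ d) (hDG : S_DG n k) : S_ETA n d k := by
  classical
  intro f hf1 hdf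
  let o : Fin n := ⟨0, by omega⟩
  obtain ⟨m, T, P, hP⟩ := clear hd o f.2
  let z : Fin n × Fin n → Cm n d k := fun q => ⟨zf o q.1 q.2 (d - 2), zf_mem hd o q.1 q.2⟩
  let z0 : Fin n × Fin n → k := fun q => if q.1 = q.2 then 1 else 0
  let δ : Cm n d k := ⟨df (d - 1), df_mem⟩
  let c₁ : Cm n d k := δ ^ m * z (o, o) ^ T
  have hz1 : ∀ q, (z q).1 1 = z0 q := by
    intro q
    show zf o q.1 q.2 (d - 2) 1 = _
    simp [zf, xf, z0, Matrix.one_apply]
  have hzM : ∀ q, z q - algebraMap k (Cm n d k) (z0 q) ∈ Mx n d k := by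
    intro q
    show (z q).1 1 - z0 q = 0
    rw [hz1, sub_self]
  -- evaluation of polynomials in the `z`
  have hev : ∀ (Q : MvPolynomial (Fin n × Fin n) k) (g : GL (Fin n) k),
      (aeval z Q : Cm n d k).1 g = eval (fun q => (z q).1 g) Q := by
    intro Q g
    induction Q using MvPolynomial.induction_on with
    | C a =>
      rw [eval_C, aeval_C]
      rfl
    | add p q hp hq =>
      rw [map_add, map_add, ← hp, ← hq]
      rfl
    | mul_X p i hp =>
      rw [map_mul, map_mul, ← hp, aeval_X, eval_X]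
      rfl
  have hc₁f : c₁ * f = aeval z P := by
    apply Subtype.ext
    funext g
    rw [hev, ← hP g]
    show ((df (d - 1) g) ^ m * (zf o o o (d - 2) g) ^ T) * f.1 g = _
    simp only [df, zf, xf, Pi.mul_apply, Pi.pow_apply]
    have h1 : (g : Matrix (Fin n) (Fin n) k) o o * (g : Matrix (Fin n) (Fin n) k) o o ^ (d - 2) =
        (g : Matrix (Fin n) (Fin n) k) o o ^ (d - 1) := by
      rw [← pow_succ']
      congr 1
      omega
    rw [h1, ← pow_mul, ← pow_mul]
  have hc₁1 : c₁.1 1 = 1 := by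
    show (df (d - 1) (1 : GL (Fin n) k)) ^ m * (zf o o o (d - 2) (1 : GL (Fin n) k)) ^ T =
      (1 : k)
    simp [df, zf, xf]
  obtain ⟨α, hα⟩ := taylor (Mx n d k) z z0 hzM P
  rw [← hc₁f] at hα
  have hP0 : eval z0 P = 0 := by
    have h1 : (fun q => (z q).1 1) = z0 := funext hz1
    rw [← h1, ← hev, ← hc₁f]
    show c₁.1 1 * f.1 1 = 0
    rw [hf1, mul_zero]
  rw [hP0, map_zero, sub_zero] at hα
  -- all `α` vanish
  have hdα : ∀ Y : Matrix (Fin n) (Fin n) k, ∑ q : Fin n × Fin n, α q *
      (Y q.1 q.2 + (if q.1 = q.2 then ((d - 2 : ℕ) : k) * Y o o else 0)) = 0 := by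
    intro Y
    have h1 := dG_zero_of_mem_sq hDG _ hα Y
    set S : Cm n d k := ∑ q, algebraMap k (Cm n d k) (α q) *
      (z q - algebraMap k (Cm n d k) (z0 q)) with hS
    have h2 : dG (c₁ * f).1 Y = 0 := by
      have h3 : (c₁ * f : Cm n d k).1 = c₁.1 * f.1 := rfl
      rw [h3, hDG.mul _ _ c₁.2.1 f.2.1, hf1, hdf, mul_zero, zero_mul, add_zero]
    have h4 : dG (c₁ * f).1 Y = dG (c₁ * f - S).1 Y + dG S.1 Y := by
      rw [← hDG.add _ _ (c₁ * f - S).2.1 S.2.1]
      congr 1
      show _ = (c₁ * f - S + S).1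
      rw [sub_add_cancel]
    rw [h1, h2, zero_add] at h4
    -- the derivative of `S`
    have h5 : ∀ s : Finset (Fin n × Fin n), dG (∑ q ∈ s, algebraMap k (Cm n d k) (α q) *
        (z q - algebraMap k (Cm n d k) (z0 q)) : Cm n d k).1 Y = ∑ q ∈ s, α q *
      (Y q.1 q.2 + (if q.1 = q.2 then ((d - 2 : ℕ) : k) * Y o o else 0)) := by
      intro s
      induction s using Finset.induction_on with
      | empty =>
        rw [Finset.sum_empty, Finset.sum_empty]
        exact hDG.const 0 Y
      | insert q s hq ih =>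
        rw [Finset.sum_insert hq, Finset.sum_insert hq, ← ih]
        have h6 : ∀ a b : Cm n d k, dG (a + b).1 Y = dG a.1 Y + dG b.1 Y :=
          fun a b => hDG.add _ _ a.2.1 b.2.1 Y
        have h7 : ∀ a b : Cm n d k, dG (a * b).1 Y = a.1 1 * dG b.1 Y + b.1 1 * dG a.1 Y :=
          fun a b => hDG.mul _ _ a.2.1 b.2.1 Y
        have h8 : ∀ a : k, dG (algebraMap k (Cm n d k) a).1 Y = 0 := fun a => hDG.const a Y
        have h9 : dG (z q - algebraMap k (Cm n d k) (z0 q)).1 Y = dG (z q).1 Y := by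
          have h10 := h6 (z q - algebraMap k (Cm n d k) (z0 q)) (algebraMap k (Cm n d k) (z0 q))
          rw [sub_add_cancel, h8, add_zero] at h10
          exact h10.symm
        rw [h6, h7, h8, h9, mul_zero, add_zero]
        congr 2
        exact dG_zf hDG o q.1 q.2 (d - 2) Y
    rw [← h5 Finset.univ]
    exact h4.symm
  have hα1 : ∀ i j : Fin n, (i, j) ≠ (o, o) → α (i, j) = 0 := by
    intro i j hij
    have h1 := hdα (Matrix.single i j 1)
    have h2 : (Matrix.single i j (1 : k)) o o = 0 := by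
      rw [Matrix.single_apply, if_neg]
      rintro ⟨rfl, rfl⟩
      exact hij rfl
    rw [Finset.sum_eq_single (i, j)] at h1
    · rw [h2, Matrix.single_apply_same] at h1
      simpa using h1
    · intro q _ hq
      rw [h2, Matrix.single_apply, if_neg]
      · simp
      · rintro ⟨h3, h4⟩
        exact hq (Prod.ext h3.symm h4.symm)
    · intro h3
      exact absurd (Finset.mem_univ _) h3
  have hα2 : α (o, o) = 0 := by
    have h1 := hdα (Matrix.single o o 1)
    rw [Finset.sum_eq_single (o, o)] at h1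
    · rw [Matrix.single_apply_same, if_pos rfl, mul_one] at h1
      rcases mul_eq_zero.1 h1 with h2 | h2
      · exact h2
      · exfalso
        have h3 : ((d - 2 + 1 : ℕ) : k) = 0 := by
          push_cast
          rw [add_comm]
          exact h2
        exact (Nat.cast_ne_zero.2 (by omega)) h3
    · intro q _ hq
      rw [hα1 q.1 q.2 hq, zero_mul]
    · intro h3
      exact absurd (Finset.mem_univ _) h3
  have hα0 : α = 0 := by
    funext q
    by_cases hq : q = (o, o)
    · rw [hq, hα2]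
      rfl
    · exact hα1 q.1 q.2 hq
  have hfin : c₁ * f ∈ Mx n d k ^ 2 := by
    have h1 : ∑ q, algebraMap k (Cm n d k) (α q) * (z q - algebraMap k (Cm n d k) (z0 q)) = 0 := by
      rw [hα0]
      simp
    rw [h1, sub_zero] at hα
    exact hα
  have h1 : f = c₁ * f - (c₁ - 1) * f := by ring
  rw [h1]
  refine Ideal.sub_mem _ hfin ?_
  rw [pow_two]
  refine Ideal.mul_mem_mul ?_ hf1
  show c₁.1 1 - 1 = 0
  rw [hc₁1, sub_self]

end

end Run7.h342.MD.EtaP

namespace Run7.h49.MD

open Run7.h342.MD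

/-- Piece ETA. -/
theorem t_ETA (n d : ℕ) (k : Type) [Field k] [IsAlgClosed k] [CharZero k] (hn : 3 ≤ n)
    (hd : 2 ≤ d) (hDG : S_DG n k) : S_ETA n d k :=
  Run7.h342.MD.EtaP.t_ETA0 hn hd hDG

end Run7.h49.MD
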